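import Mathlib
import Pool.Agent.TH170.GS.Main
import Pool.Agent.Y1.KN.All
import Pool.Agent.Y1.KN.Use
import Pool.Agent.TH170.FT.MT

/-!
# The Mumford-Tate conjecture for abelian varieties with a Frobenius element in almost all slope types
of all CM fields with few CM subfields, and of all CM fields whose degree has a large prime factor

Let `A` be an abelian variety over a number field (or a finitely generated subfield of the complex
numbers), of any dimension and with arbitrary endomorphisms, which has good reduction at some place
`v`, with a residue field of `p ^ a` elements. Suppose that the characteristic polynomial of the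
Frobenius element at `v` is the product of the minimal polynomials of Weil numbers `π i` that generate
CM fields `K i` of degree `2 g i` (`HasFrobenius`); so `dim A = ∑ i, g i`. Nothing is assumed about
the Galois groups of the fields `K i`; they are pairwise independent: for `i ≠ k` and all complex
embeddings `φ` of `K i` and `ψ` of `K k` some automorphism of `ℂ` is the identity on `φ (K i)` and
the complex conjugation on `ψ (K k)` (this is no condition if there is only one field).

We fix an isomorphism `ν` of the algebraic closure of `ℚ_p` with `ℂ`; it defines a `p`-adic valuation
of `ℂ`, with the value one at `p`. Let `M i` be a function with nonzero integral values, all of which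
divide `n i`, on the complex embeddings of `K i`, invariant under complex conjugation. A CM type
`Φ i` of `K i` (a choice of one element out of each complex conjugate pair of embeddings; there are
`2 ^ (g i)` types), `M i` and a real number `κ ≠ 0` prescribe the slopes `(a + κ M) / 2` (at the
embeddings in `Φ i`) and `(a - κ M) / 2` (outside of `Φ i`) of a Weil number in `K i` (`IsOfType`). If
`p` splits completely in `K i` then, by Honda and Tate, all slopes with rational values between `0` and
`a` that are symmetric in this way occur for abelian varieties over finite fields. The case `M = 1`,
`κ = a` is the case of ordinary reduction; the assumption on `M` says that `a / 2` is not a slope.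
Slopes are rational, so integral weights `M` are no restriction.

There are `2 ^ (∑ i, g i)` families of CM types `Φ i` of the fields `K i`. A family is exceptional
(`exceptionalFamilies ν K M`) if the following statement (`Holds`) is false for it: for all abelian
varieties `A` as above with Weil numbers `π i` of the slope types `Φ i`, and all prime numbers `ℓ`,
all Tate classes in the tensor powers of `H^1` (and so in the cohomology of all powers of `A`) are
linear combinations of Hodge classes, and even of products of Hodge classes of degree two
(`MumfordTateStrong`). Together with the theorem of Deligne (Hodge classes are Tate classes) this is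
the equality of the Mumford-Tate group (over `ℚ_ℓ`) and of the connected component of the `ℓ`-adic
monodromy group: both are reductive, so that they are determined by their invariants in the spaces
`(H^1)^{⊗ 2 m}(m)`. So the Mumford-Tate conjecture holds for `A`, and the Hodge and the Tate
conjecture hold for all powers of `A`.

In the formal statement (`IsRealization`) `W` is `H_1(A, ℚ)`, `T` the tangent space at the origin and
`per : W → T` the inclusion, `ω₀` is the form given by a polarization; `V` is the rational Tate module
with the comparison map `comp : W → V`, the action `ρ` of the Galois group and the Weil pairing `ω`;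
`χ` is the cyclotomic character. The theorems of Faltings on endomorphisms and on semisimplicity are
part of the data. That the absence of relations between the conjugates of the Weil numbers of one
Frobenius element implies the Mumford-Tate conjecture was formalized before (MP_c1bb77_ag
OneFrobeniusTowers); new is that this holds for almost all slope types in arbitrary CM fields.

The theorem bounds the number of the exceptional families: it is at most
`2 ^ (∑ i, g i) * ∑ i, C * (n i) ^ 2 * rate (K i) (g i) (q i)`, with an absolute constant `C`. Here
`q i` is any prime factor of `g i` (or `q i = 1`), and `rate K g q` is `(1 + log (2 g)) ^ 16` times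
the smaller of the numbers

* `W (K) / √g`, where (second part of the theorem, `WeightEstimate`) `W (K) ≤ N ^ 2 * D ^ (1 / 4)`;
  `N` is the number of the CM subfields of `K` (with `K`) and `D` is the largest degree of a CM
  subfield of `K` that is normal over `ℚ` with a nonabelian Galois group (`D = 1` if there are none);
* `√g / q`.

So the exceptional types are a proportion `O (n ^ 2 * g ^ (-1 / 4) * (log g) ^ 16)` of all types of
all CM fields with a bounded number of CM subfields, and `O (n ^ 2 * g ^ (-1 / 2) * (log g) ^ 16)` if
the normal nonabelian ones have bounded degrees (for instance if `K` has no proper CM subfields and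
is not normal). The exponent `1 / 2` is sharp if `K` contains an imaginary quadratic field. And they
are a proportion `O (n ^ 2 * g ^ (-δ) * (log g) ^ 16)` of the types of all CM fields `K`, with any
number of subfields, whose degree is divisible by a prime number `q ≥ g ^ (1 / 2 + δ)`; for small `δ`
there are such primes for about `log 2`, that is 69%, of all numbers `g`. Some assumption is
necessary: a multiquadratic CM field of degree `2 g` has `g` imaginary quadratic subfields, and by a
second moment argument almost all of its types are degenerate. The bound of the starting files
(`AlmostAllFrobeniusTypes`) is a sum over the isotypic components of the odd part of the permutation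
representation. It contains the logarithm of the order of the Galois group, and gives nothing if this
order is large and some components have high multiplicities. Here nothing is assumed about the
Galois group and the multiplicities.

The number `W (K)` (`subfieldWeight K`) is defined as follows. The automorphisms of `ℂ` act on the
rational functions on the set of the complex embeddings of `K` which change their sign under complex
conjugation. A field of definition (`fieldsOfDefinition K`) of an isotypic component of this
representation is a smallest subfield `F` of `K` such that the values of the functions in the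
component depend only on the restrictions of the embeddings to `F`. It is a CM field. Then `W (K)` is
the sum over these fields `F` of the number of the CM subfields of `F`, multiplied by
`[F : ℚ] ^ (1 / 4)` if `F` is normal over `ℚ` and its Galois group is not abelian.

The proof. If there are relations between the conjugates of the Weil numbers that are not generated
by those of the complex conjugate pairs, then for one of the types the sign function, multiplied by `M`, is
orthogonal to a minimal Galois-stable space `S` of dimension `d`; let `h` be the dimension of the
part of `S` fixed by the stabilizer of an embedding, `e` the dimension of the algebra of the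
endomorphisms of `S`. (1) The types orthogonal to some space isomorphic to `S` are at most
`2 ^ g * h d / (e ^ 2 √g)`, by an inequality for the kernels of sums of matrices with random signs.
(2) If `F` is the field of definition then `S` is a faithful representation of the Galois group `G`
of `F`, so that the order of `G` is at most `(2 g) ^ b` if `d (1 - h / d) ^ b < 1`; this permits to use
reductions modulo primes of the size `√(g / d)` (as in the starting files) or larger primes, whatever
the order of `G` is, and gives the bound `2 ^ g * C * n ^ 2 * (h d / (e g_F)) * (log g) ^ 16 / √g`,
`2 g_F = [F : ℚ]`, if `c = e + d - h ≥ 3`. The sum of the numbers `h d / e` for one field `F` is at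
most `g_F`. (3) If `c ≤ 2` then `F` is normal, or some involution acts as a reflection on `S` and
generates the stabilizer. The number of these `S` is estimated by the number of the CM subfields of
`F`: in the first case since rational characters are determined by their values on cyclic subgroups;
in the second case `S` is determined by a quadratic character of the centralizer of the involution.
(4) For the second bound: the `S` of dimension less than `q - 1` come from a subfield of degree at
most `2 g / q`, and there are at most `2 g / q` others.
-/

namespace Pool.Agent.Results.MP_33b3f9_ag.AllCMFields

open NumberField Module Pool.Agent.H204R3.CM Pool.Agent.H977R3.CM Pool.Agent.TH170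
  Pool.Agent.Y1.KN

open Pool.Agent.H204R3.GP

/-- The Mumford-Tate conjecture for the abelian varieties with a Frobenius element whose characteristic
polynomial is the product of the minimal polynomials of Weil numbers `π i` for `p ^ a` with the slope
types `Φ i`, `M i`, for the prime number `ℓ`. -/
def HoldsAt {p : ℕ} [Fact p.Prime] (ν : PadicAlgCl p ≃+* ℂ) {I : Type} [Fintype I]
    (K : I → Type) [∀ i, Field (K i)] [∀ i, NumberField (K i)] [∀ i, IsCMField (K i)]
    (M : ∀ i, (K i →+* ℂ) → ℤ) (Φ : ∀ i, Set (K i →+* ℂ)) (a : ℕ) (π : ∀ i, K i)
    (ℓ : ℕ) [Fact ℓ.Prime] : Prop :=
  ∀ (W T V Γ : Type) [AddCommGroup W] [Module ℚ W] [AddCommGroup T] [Module ℂ T]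
    [AddCommGroup V] [Module ℚ_[ℓ] V] [FiniteDimensional ℚ_[ℓ] V] [Group Γ]
    (per : W →+ T) (ω₀ : W →ₗ[ℚ] W →ₗ[ℚ] ℚ) (comp : W →+ V) (ρ : Representation ℚ_[ℓ] Γ V)
    (χ : Γ →* ℚ_[ℓ]) (ω : V →ₗ[ℚ_[ℓ]] V →ₗ[ℚ_[ℓ]] ℚ_[ℓ]),
    FT.IsOfType ν a K M Φ π → FT.IsRealization per ω₀ comp ρ χ ω →
      FT.HasFrobenius ρ χ p a π → MumfordTateStrong per comp ρ χ

/-- The Mumford-Tate conjecture for all abelian varieties with a Frobenius element whose
characteristic polynomial is the product of the minimal polynomials of Weil numbers with the slope
types `Φ i`, `M i`, for all prime numbers `ℓ`. -/
def Holds {p : ℕ} [Fact p.Prime] (ν : PadicAlgCl p ≃+* ℂ) {I : Type} [Fintype I]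
    (K : I → Type) [∀ i, Field (K i)] [∀ i, NumberField (K i)] [∀ i, IsCMField (K i)]
    (M : ∀ i, (K i →+* ℂ) → ℤ) (Φ : ∀ i, Set (K i →+* ℂ)) : Prop :=
  ∀ (a : ℕ) (π : ∀ i, K i) (ℓ : ℕ) [Fact ℓ.Prime], 0 < a → HoldsAt ν K M Φ a π ℓ

/-- The exceptional families of CM types. -/
def exceptionalFamilies {p : ℕ} [Fact p.Prime] (ν : PadicAlgCl p ≃+* ℂ) {I : Type} [Fintype I]
    (K : I → Type) [∀ i, Field (K i)] [∀ i, NumberField (K i)] [∀ i, IsCMField (K i)]
    (M : ∀ i, (K i →+* ℂ) → ℤ) : Set (∀ i, Set (K i →+* ℂ)) :=
  {Φ | (∀ i, IsCMType (Φ i)) ∧ ¬ Holds ν K M Φ}

/-- **The Mumford-Tate conjecture for abelian varieties with a Frobenius element in almost all slope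
types of all CM fields with few CM subfields, and of all CM fields whose degree has a large prime
factor.** -/
theorem result :
    (∃ C : ℝ, 0 ≤ C ∧ ∀ (p : ℕ) [Fact p.Prime] (ν : PadicAlgCl p ≃+* ℂ) (I : Type) [Fintype I]
      (K : I → Type) [∀ i, Field (K i)] [∀ i, NumberField (K i)] [∀ i, IsCMField (K i)]
      (M : ∀ i, (K i →+* ℂ) → ℤ) (n g q : I → ℕ), PairwiseIndep K →
      (∀ i φ, M i (ComplexEmbedding.conjugate φ) = M i φ) → (∀ i, n i ≠ 0) →
      (∀ i φ, M i φ ∣ (n i : ℤ)) → (∀ i, finrank ℚ (K i) = 2 * g i) →
      (∀ i, q i ∣ g i ∧ (q i = 1 ∨ (q i).Prime)) →
      ((exceptionalFamilies ν K M).ncard : ℝ) ≤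
        2 ^ (∑ i, g i) * ∑ i, C * (n i : ℝ) ^ 2 * rate (K i) (g i) (q i)) ∧
    WeightEstimate := by
  obtain ⟨C, hC0, hC⟩ := families_holds
  refine ⟨⟨C, hC0, ?_⟩, weight_estimate_holds⟩
  intro p _ ν I _ K _ _ _ M n g q hind hM hn hMn hg hq
  refine hC I K M n g q hM hn hMn hg hq (Holds ν K M) ?_
  exact fun _ hΦ hnd _ _ _ _ ha _ _ _ _ _ _ _ _ _ _ _ _
    _ _ _ _ _ _ hπ hR hF => FT.mumfordTate_of_types hind hM hΦ hnd ha hπ hR hF

end Pool.Agent.Results.MP_33b3f9_ag.AllCMFields
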