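import Mathlib
import Pool.Agent.Y144.MT.Cond

/-!
# The Mumford-Tate conjecture for abelian varieties with a place of bad reduction of any toric rank

Let `A` be an abelian variety over a finitely generated field of complex numbers, `W = H_1(A, ℚ)`
with the polarization form `ω₀`, `T` the tangent space at the origin and `per : W → T` the inclusion;
`V = ℚ_ℓ ⊗ W` is the rational Tate module, with the action `ρ` of the Galois group `Γ` and the
cyclotomic character `χ`.  Let `K` be the algebraic closure of `ℚ_ℓ` and `X = K ⊗ V`.  A subspace of `X`
is *strongly irreducible* if it is a minimal nonzero subspace stable under a subgroup of finite index.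
If the endomorphism ring of `A` over the algebraic closure is `ℤ` there is just one, `X`.

Hypotheses.

* `hss`, `hF`: the theorems of Faltings (semisimplicity; the endomorphisms of `V` which commute with
  an open subgroup of the Galois group are combinations of endomorphisms of `A`).
* `hplace`: for every strongly irreducible subspace `U` of dimension at least two there is a place of
  bad semistable reduction which satisfies `HasBadPlace`: the inertia group contains an element `γ`
  with `(γ - 1) ^ 2 = 0` such that the defects of `γ` on `U` (the rank of `γ - 1` on `U`, and the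
  multiplicities of the nonzero eigenvalues of the operators `(γ - 1) (g γ g⁻¹ - 1)`, for instance)
  have greatest common divisor one; or `U` is symplectic and one of the defects is two or odd, or
  the Frobenius element has an eigenvalue of odd multiplicity on `U` and the greatest common divisor
  of the defects, or the multiplicity of an eigenvalue of weight one, is small.
  There is no condition on the toric rank.

Theorem.  Suppose that the strongly irreducible lines are not self-dual and that non-self-dual
strongly irreducible subspaces are not isomorphic to proper twists of each other (there are no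
such lines and subspaces for types I, II).  Then the Mumford-Tate conjecture holds for `A`: all Tate
classes in all the tensor powers `(H^1)^{⊗ 2 m}(m)` are linear combinations of Hodge classes
(`hcen` is the theorem that the Mumford-Tate conjecture holds for the centres of the groups;
Vasiu, Ullmo-Yafaev).  If all strongly irreducible subspaces are symplectic (types I, II) it holds, without
`hcen`, in the strong form: all Tate classes are combinations of products of Hodge classes of degree
two, so that the Mumford-Tate group and the `ℓ`-adic monodromy group are equal to the full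
group of the symplectic similitudes that commute with `End(A)`, and the Hodge and the Tate
conjecture hold for all powers of `A`.

Example.  `End(A) = ℤ` over the algebraic closure, `dim A ≥ 5`, and at ONE place of bad semistable
reduction (with split torus) the Frobenius has a simple eigenvalue on the abelian part of the
reduction (the weak Hodge elements generate by a theorem of Pink).
-/

set_option autoImplicit false

namespace Pool.Agent.Results.MP_33b3f9_ag.AnyToricRank

open Module TensorProduct Pool.Agent.Y126.Notions
open Pool.Agent.H204R3.SP Pool.Agent.H204R3.GP Pool.Agent.W522.U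
open Pool.Agent.TH118.MT Pool.Agent.Y144.MT

theorem result (ℓ : ℕ) [Fact ℓ.Prime]
    -- the complex abelian variety `A` with a polarization
    {W T : Type} [AddCommGroup W] [Module ℚ W] [FiniteDimensional ℚ W] [AddCommGroup T] [Module ℂ T]
    (per : W →+ T) (ω₀ : W →ₗ[ℚ] W →ₗ[ℚ] ℚ) (halt : ∀ v, ω₀ v v = 0)
    (hnondeg : ∀ u, (∀ v, ω₀ v u = 0) → u = 0) (hω₀ : IsHodgeBilinear per ω₀)
    -- the action of the Galois group on the Tate module
    {Γ : Type} [Group Γ] (ρ : Representation ℚ_[ℓ] Γ (ℚ_[ℓ] ⊗[ℚ] W)) (χ : Γ →* ℚ_[ℓ])
    (hω : ∀ s u v, bcb ℚ_[ℓ] ω₀ (ρ s u) (ρ s v) = χ s * bcb ℚ_[ℓ] ω₀ u v)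
    -- the theorems of Faltings
    (hss : FiniteIndexSemisimple ρ) (hF : FaltingsEnd per (incl ℚ_[ℓ] W) ρ)
    -- the places of bad reduction
    (hplace : ∀ U, StronglyIrreducible (bcr ρ (AlgebraicClosure ℚ_[ℓ])) U →
      2 ≤ finrank (AlgebraicClosure ℚ_[ℓ]) U →
      HasBadPlace (bcr ρ (AlgebraicClosure ℚ_[ℓ])) (bcc χ (AlgebraicClosure ℚ_[ℓ])) U) :
    (NoSelfDualLines (bcr ρ (AlgebraicClosure ℚ_[ℓ])) (bcc χ (AlgebraicClosure ℚ_[ℓ])) →
      NoProperTwists (bcr ρ (AlgebraicClosure ℚ_[ℓ])) (bcc χ (AlgebraicClosure ℚ_[ℓ])) →
      CentreTheorem per (Pool.Agent.TH118.MT.extend (k := ℚ_[ℓ]) (AlgebraicClosure ℚ_[ℓ])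
        (incl ℚ_[ℓ] W)) (bcr ρ (AlgebraicClosure ℚ_[ℓ])) (bcc χ (AlgebraicClosure ℚ_[ℓ])) →
      MumfordTate per (incl ℚ_[ℓ] W) ρ χ) ∧
    ((∀ U, StronglyIrreducible (bcr ρ (AlgebraicClosure ℚ_[ℓ])) U →
        IsSymplectic (bcr ρ (AlgebraicClosure ℚ_[ℓ])) (bcc χ (AlgebraicClosure ℚ_[ℓ])) U) →
      MumfordTateStrong per (incl ℚ_[ℓ] W) ρ χ) := by
  refine ⟨fun hlines htwists hcen => ?_, fun hsym => ?_⟩
  · exact mt_of_one ℓ per ω₀ halt hnondeg hω₀ ρ χ hω hss hF hcen
      (fun ω hl hinv hpr U hU h2 => one_of_bad ω hl hinv hpr hU (hplace U hU h2)) hlines htwists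
  · exact mt_strong_of_one ℓ per ω₀ halt hnondeg hω₀ ρ χ hω hss hF hsym
      (fun ω hl hinv hpr U hU h2 => one_of_bad ω hl hinv hpr hU (hplace U hU h2))

end Pool.Agent.Results.MP_33b3f9_ag.AnyToricRank
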