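import Mathlib
import Pool.Agent.Y144.MT.Cond

/-!
# The Mumford-Tate conjecture for abelian varieties from Frobenius elements at places of good reduction

Let `A` be an abelian variety over a finitely generated field of complex numbers, `W = H_1(A, ℚ)`
with the polarization form `ω₀`, `T` the tangent space at the origin and `per : W → T` the inclusion;
`V = ℚ_ℓ ⊗ W` is the rational Tate module, with the action `ρ` of the Galois group `Γ` and the
cyclotomic character `χ`.  Let `K` be the algebraic closure of `ℚ_ℓ` and `X = K ⊗ V`.  A subspace of `X`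
is *strongly irreducible* if it is a minimal nonzero subspace stable under a subgroup of finite index.
If the endomorphism ring of `A` over the algebraic closure is `ℤ` there is just one, `X`.

Hypotheses.

* `hss`, `hF`: the theorems of Faltings (semisimplicity; the endomorphisms of `V` which commute with
  an open subgroup of the Galois group are combinations of endomorphisms of `A`).
* `hplaces`: every strongly irreducible subspace `U` of dimension at least two satisfies
  `HasGoodPlaces`.  Either there are two ordinary Frobenius elements (`F` and `g F g⁻¹` for instance)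
  whose slope operators `x` and `y` are in general position: half of the multiplicities on `U` of the
  eigenvalues of `x y + y x` have no common factor, or `U` is symplectic and one of them is two, odd, or
  prime to the dimension; or `U` is symplectic and ONE Frobenius element, not necessarily ordinary, has
  eigenvalues with few coincidences between their ratios (`HasFewRatios`).

Theorem.  Suppose that the strongly irreducible lines are not self-dual and that non-self-dual
strongly irreducible subspaces are not isomorphic to proper twists of each other (there are no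
such lines and subspaces for types I, II).  Then the Mumford-Tate conjecture holds for `A`: all Tate
classes in all the tensor powers `(H^1)^{⊗ 2 m}(m)` are linear combinations of Hodge classes
(`hcen` is the theorem that the Mumford-Tate conjecture holds for the centres of the groups;
Vasiu, Ullmo-Yafaev).  If all strongly irreducible subspaces are symplectic (types I, II) it holds, without
`hcen`, in the strong form: all Tate classes are combinations of products of Hodge classes of degree
two, so that the Mumford-Tate group and the `ℓ`-adic monodromy group are equal to the full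
group of the symplectic similitudes that commute with `End(A)`, and the Hodge and the Tate
conjecture hold for all powers of `A`.

Examples (`End(A) = ℤ` over the algebraic closure, `dim A ≥ 5`).  At one place of good reduction the
slopes are `0`, `1 / 2` and `1`, `F` is a scalar on the part of slope `1 / 2`, and some unit eigenvalue
is simple (any `p`-rank).  Or `dim A` is odd, the reduction is ordinary and, for some unit eigenvalue `a`
and each unit eigenvalue `a'`, the number of pairs of unit eigenvalues with product `a a'` is less
than half of `dim A`.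
-/

set_option autoImplicit false

namespace Pool.Agent.Results.MP_33b3f9_ag.FrobeniusPairsOrRatios

open Module TensorProduct Pool.Agent.Y126.Notions
open Pool.Agent.H204R3.SP Pool.Agent.H204R3.GP Pool.Agent.W522.U
open Pool.Agent.TH118.MT Pool.Agent.Y144.MT

theorem result (ℓ : ℕ) [Fact ℓ.Prime]
    -- the complex abelian variety `A` with a polarization
    {W T : Type} [AddCommGroup W] [Module ℚ W] [FiniteDimensional ℚ W] [AddCommGroup T] [Module ℂ T]
    (per : W →+ T) (ω₀ : W →ₗ[ℚ] W →ₗ[ℚ] ℚ) (halt : ∀ v, ω₀ v v = 0)
    (hnondeg : ∀ u, (∀ v, ω₀ v u = 0) → u = 0) (hω₀ : IsHodgeBilinear per ω₀)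
    -- the action of the Galois group on the Tate module
    {Γ : Type} [Group Γ] (ρ : Representation ℚ_[ℓ] Γ (ℚ_[ℓ] ⊗[ℚ] W)) (χ : Γ →* ℚ_[ℓ])
    (hω : ∀ s u v, bcb ℚ_[ℓ] ω₀ (ρ s u) (ρ s v) = χ s * bcb ℚ_[ℓ] ω₀ u v)
    -- the theorems of Faltings
    (hss : FiniteIndexSemisimple ρ) (hF : FaltingsEnd per (incl ℚ_[ℓ] W) ρ)
    -- the places of good reduction
    (hplaces : ∀ U, StronglyIrreducible (bcr ρ (AlgebraicClosure ℚ_[ℓ])) U →
      2 ≤ finrank (AlgebraicClosure ℚ_[ℓ]) U →
      HasGoodPlaces (bcr ρ (AlgebraicClosure ℚ_[ℓ])) (bcc χ (AlgebraicClosure ℚ_[ℓ])) U) :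
    (NoSelfDualLines (bcr ρ (AlgebraicClosure ℚ_[ℓ])) (bcc χ (AlgebraicClosure ℚ_[ℓ])) →
      NoProperTwists (bcr ρ (AlgebraicClosure ℚ_[ℓ])) (bcc χ (AlgebraicClosure ℚ_[ℓ])) →
      CentreTheorem per (Pool.Agent.TH118.MT.extend (k := ℚ_[ℓ]) (AlgebraicClosure ℚ_[ℓ])
        (incl ℚ_[ℓ] W)) (bcr ρ (AlgebraicClosure ℚ_[ℓ])) (bcc χ (AlgebraicClosure ℚ_[ℓ])) →
      MumfordTate per (incl ℚ_[ℓ] W) ρ χ) ∧
    ((∀ U, StronglyIrreducible (bcr ρ (AlgebraicClosure ℚ_[ℓ])) U →
        IsSymplectic (bcr ρ (AlgebraicClosure ℚ_[ℓ])) (bcc χ (AlgebraicClosure ℚ_[ℓ])) U) →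
      MumfordTateStrong per (incl ℚ_[ℓ] W) ρ χ) := by
  refine ⟨fun hlines htwists hcen => ?_, fun hsym => ?_⟩
  · exact mt_of_one ℓ per ω₀ halt hnondeg hω₀ ρ χ hω hss hF hcen
      (fun ω hl hinv hpr U hU h2 => one_of_good ω hl hinv hpr hU (hplaces U hU h2)) hlines htwists
  · exact mt_strong_of_one ℓ per ω₀ halt hnondeg hω₀ ρ χ hω hss hF hsym
      (fun ω hl hinv hpr U hU h2 => one_of_good ω hl hinv hpr hU (hplaces U hU h2))

end Pool.Agent.Results.MP_33b3f9_ag.FrobeniusPairsOrRatios
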