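import Mathlib
import Pool.Agent.Y91.L.Tens
import Pool.Agent.Y71.OD2.Duo

/-!
# The Mumford-Tate conjecture for abelian varieties with non-coprime signatures

Let `X` be an abelian variety over a finitely generated field of characteristic zero, embedded in
the field of complex numbers. Let `U` be a simple abelian subvariety of `X` over the complex numbers,
`F = ℚ(a)` a maximal commutative subfield of its endomorphism algebra (a CM field or a totally real
field) and let the signatures of `U` be the pairs `(p, q)` of the multiplicities of the embeddings
`z`, `conj z` of `F` on the tangent space of `U`. The signature is definite if `p = 0` or `q = 0`.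
Suppose that each `U` has one of the following properties (`GoodType`).

* At some place the signature `(p, q)` is indefinite, `p ≠ q`, the numbers `p`, `q` are not two
  neighbouring binomial coefficients `C(m, i)`, `C(m, i - 1)` with `1 < i < m`, and `p + q` does not
  divide the product of `gcd(p, q)` with `gcd(p', q')`, for all indefinite signatures `(p', q')`
  of `U`. For example, `p = 2 p₁`, `q = 2 q₁` with coprime `p₁ ≠ q₁` (apart from the binomial
  coefficients) and all other indefinite signatures equal to this one.
* `p = q` is odd at all places and the centre of the endomorphism algebra is a CM field.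
* `p`, `q` are coprime at some place; or `p = q = 2` at all places and the endomorphism algebra is
  the CM field `F`; or `F` is totally real and the relative dimension is odd or two; or `U` has
  complex multiplication; or the dimension of `U` is one or a prime number.

Suppose that the simple abelian subvarieties are not related by twists (`IsSeparated`), which always
holds if all multiplicities are nonzero. The dimensions, the number and the multiplicities of the
simple factors are arbitrary.

**Theorem.** All Tate tensors are linear combinations of Hodge tensors: each multilinear form in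
`2 n` variables on the Tate module `ℚ_ℓ ⊗ H`, `H = H_1(X, ℚ)`, on which a subgroup of finite index
of the Galois group acts through the `n`-th power of the cyclotomic character, is a combination of
Hodge classes in `H^1(X, ℚ)^{⊗ 2 n}(n)`. Since the groups in question are reductive (Faltings) and
contain the homotheties (Bogomolov), they are given by these tensors, and this is the Mumford-Tate
conjecture for `X`.

The hypotheses on the Tate module (`IsTateModule`) are known theorems: the Weil pairing, the theorem
of Faltings, the Hodge-Tate decomposition and the theorem of Serre (Pink) that the Hodge-Tate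
elements generate the Lie algebra of the image of the Galois group.

The proof is the `ℓ`-adic version of the determination of the Lie algebra of the Hodge group by
its elements of rank one (`Pool.Agent.Y91.G.rank_one_gcd`).
-/

namespace Pool.Agent.Results.MP_33b3f9_ag.NonCoprimeSignatures

open Pool.Agent.Y90.St Pool.Agent.Y224.TS.St TensorProduct

/-- **The Mumford-Tate conjecture** for an abelian variety `X` over a finitely generated field of
characteristic zero, given by the period map `per : H → T` (`H = H_1(X, ℚ)`, `T` the tangent space),
a polarization `E` and the representation `ρ` of the Galois group `Γ` on the Tate module `ℚ_ℓ ⊗ H`,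
with the known properties of the Tate module (`IsTateModule`; `χ` is the cyclotomic character, and
`ℂ` is identified with an algebraic closure of `ℚ_ℓ`). If the simple abelian subvarieties of `X`
over `ℂ` have one of the types of `GoodType` and are not related by twists (`IsSeparated`), then
each Tate tensor `φ` (a multilinear form in `2 n` variables on the Tate module on which a subgroup
of finite index acts through `χ ^ n`) is a `ℚ_ℓ`-linear combination of Hodge tensors (`HodgeMul`). -/
theorem result {H T : Type} [AddCommGroup H] [Module ℚ H] [AddCommGroup T] [Module ℂ T]
    (per : H →+ T) (hX : IsAV per) (hs : Pool.Agent.Y91.L.GoodType per)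
    (ht : Pool.Agent.Y4.Q.IsSeparated per)
    (E : H → H → ℚ) (hE : IsPolarization per E)
    (ℓ : ℕ) [Fact ℓ.Prime] [Algebra ℚ_[ℓ] ℂ] [Algebra.IsAlgebraic ℚ_[ℓ] ℂ]
    {Γ : Type} [Group Γ] (ρ : Representation ℚ_[ℓ] Γ (ℚ_[ℓ] ⊗[ℚ] H)) (χ : Γ →* ℚ_[ℓ])
    (hρ : IsTateModule per E ρ χ) {κ : Type} [Finite κ] {n : ℕ} (hκ : Nat.card κ = 2 * n)
    (φ : MultilinearMap ℚ_[ℓ] (fun _ : κ => ℚ_[ℓ] ⊗[ℚ] H) ℚ_[ℓ])
    (hφ : ∃ Δ : Subgroup Γ, Δ.FiniteIndex ∧ ∀ g ∈ Δ, ∀ v : κ → ℚ_[ℓ] ⊗[ℚ] H,
      φ (fun k => ρ g (v k)) = χ g ^ n * φ v) :
    ∃ (N : ℕ) (c : Fin N → ℚ_[ℓ]) (f : Fin N → MultilinearMap ℚ (fun _ : κ => H) ℚ),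
      (∀ j, Pool.Agent.H204R3.CM.HodgeMul per (f j)) ∧
        ∀ v : κ → H, φ (fun k => (1 : ℚ_[ℓ]) ⊗ₜ v k) = ∑ j, c j * ((f j v : ℚ) : ℚ_[ℓ]) :=
  Pool.Agent.Y91.L.tate_hodge Pool.Agent.Y71.OD2.duo hX hs ht hE hρ hκ φ hφ

end Pool.Agent.Results.MP_33b3f9_ag.NonCoprimeSignatures
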